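import Pool.Agent.H89.PF.Pole

/-! Primes of degree prime to `ℓ` and dimension one. -/

set_option autoImplicit false
set_option linter.all false

open Module

namespace Pool.Agent.H89.PF

open Pool.Agent.Q49.TL

section chain

variable {K : Type} [Field K] {ι : Type} [Finite ι]

/-- `P` is a homogeneous prime ideal of dimension `s` and degree prime to `ℓ` -/
def Good (ℓ : ℕ) (P : Ideal (MvPolynomial ι K)) (s : ℕ) : Prop :=
  P.IsPrime ∧ Gr (1 : ι → ℕ) P ∧ ∃ q : Polynomial ℤ,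
    (1 - PowerSeries.X) ^ s * HP P = (q : PowerSeries ℤ) ∧ ¬ (ℓ : ℤ) ∣ q.eval 1

theorem exists_prime {ℓ s : ℕ} {J₀ : Ideal (MvPolynomial ι K)} (q₀ : Polynomial ℤ)
    (h₀ : (1 - PowerSeries.X) ^ s * HP J₀ = (q₀ : PowerSeries ℤ)) (J : Ideal (MvPolynomial ι K)) :
    J₀ ≤ J → Gr (1 : ι → ℕ) J → ∀ q : Polynomial ℤ,
    (1 - PowerSeries.X) ^ s * HP J = (q : PowerSeries ℤ) → ¬ (ℓ : ℤ) ∣ q.eval 1 →
    ∃ P, J ≤ P ∧ Good ℓ P s := by
  induction J using WellFoundedGT.induction with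
  | ind J ih =>
    intro hle hJ q hq hv
    by_cases ht : J = ⊤
    · exfalso
      rw [ht, HP_top, mul_zero] at hq
      have h1 : q = 0 := Polynomial.coe_injective ℤ (by rw [← hq, Polynomial.coe_zero])
      apply hv
      rw [h1, Polynomial.eval_zero]
      exact dvd_zero _
    by_cases hp : J.IsPrime
    · exact ⟨J, le_rfl, hp, hJ, q, hq, hv⟩
    · obtain ⟨a, b, e, ha, haJ, hbJ, hab⟩ := Pool.Agent.Q225.TL.not_prime hJ ht hp
      obtain ⟨g1, g2, g3⟩ := HP_add hJ ha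
      have hpol : ∀ J' : Ideal (MvPolynomial ι K), J < J' → Gr (1 : ι → ℕ) J' →
          ∃ R : Polynomial ℤ, (1 - PowerSeries.X) ^ s * HP J' = (R : PowerSeries ℤ) := by
        intro J' hlt hJ'
        obtain ⟨N, R, hR⟩ := exists_pole J' hJ'
        exact compare (HP J') (HP J₀) (HP_nonneg J') (HP_anti (hle.trans hlt.le)) s q₀ h₀ N R hR
      obtain ⟨R1, h1⟩ := hpol _ (lt_sup haJ) g1
      obtain ⟨R2, h2⟩ := hpol _ (lt_qt hbJ hab) g2
      have g4 : HP J = HP (J ⊔ Ideal.span {a} * ⊤) + PowerSeries.X ^ e * HP (⊤ ⊓ qt J a) := by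
        rw [g3]; ring
      have h3 : q = R1 + Polynomial.X ^ e * R2 := by
        apply Polynomial.coe_injective ℤ
        rw [← hq, g4, Polynomial.coe_add, Polynomial.coe_mul, Polynomial.coe_pow, Polynomial.coe_X,
          ← h1, ← h2]
        ring
      have h4 : q.eval 1 = R1.eval 1 + R2.eval 1 := by
        rw [h3]
        simp
      by_cases hv1 : (ℓ : ℤ) ∣ R1.eval 1
      · have hv2 : ¬ (ℓ : ℤ) ∣ R2.eval 1 := by
          intro h
          apply hv
          rw [h4]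
          exact dvd_add hv1 h
        obtain ⟨P, hP1, hP2⟩ := ih _ (lt_qt hbJ hab) (hle.trans (lt_qt hbJ hab).le) g2 R2 h2 hv2
        exact ⟨P, (lt_qt hbJ hab).le.trans hP1, hP2⟩
      · obtain ⟨P, hP1, hP2⟩ := ih _ (lt_sup haJ) (hle.trans (lt_sup haJ).le) g1 R1 h1 hv1
        exact ⟨P, (lt_sup haJ).le.trans hP1, hP2⟩

theorem step {ℓ s d : ℕ} (hℓ : ℓ.Prime) {P : Ideal (MvPolynomial ι K)} (hP : Good ℓ P (s + 1))
    {f : MvPolynomial ι K} (hf : f.IsHomogeneous d) (hd : ¬ ℓ ∣ d) (hfP : f ∉ P) :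
    ∃ P', P ≤ P' ∧ f ∈ P' ∧ Good ℓ P' s := by
  obtain ⟨hp, hg, q, hq, hv⟩ := hP
  have h1 := HP_prime hp hg hf hfP
  have h2 : (1 - PowerSeries.X ^ d : PowerSeries ℤ) =
      (1 - PowerSeries.X) * ((∑ i ∈ Finset.range d, Polynomial.X ^ i : Polynomial ℤ) : PowerSeries ℤ) := by
    have h3 : (1 - Polynomial.X ^ d : Polynomial ℤ) =
        (1 - Polynomial.X) * ∑ i ∈ Finset.range d, Polynomial.X ^ i := (mul_neg_geom_sum _ d).symm
    have h4 := congrArg (fun p : Polynomial ℤ => (p : PowerSeries ℤ)) h3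
    simpa only [Polynomial.coe_sub, Polynomial.coe_one, Polynomial.coe_pow, Polynomial.coe_X,
      Polynomial.coe_mul] using h4
  have h5 : (1 - PowerSeries.X) ^ s * HP (P ⊔ Ideal.span {f} * ⊤) =
      (((∑ i ∈ Finset.range d, Polynomial.X ^ i) * q : Polynomial ℤ) : PowerSeries ℤ) := by
    rw [h1, h2, Polynomial.coe_mul, ← hq]
    ring
  obtain ⟨P', hP1, hP2⟩ := exists_prime (ℓ := ℓ) _ h5 _ le_rfl (HP_add hg hf).1 _ h5 (by
    rw [Polynomial.eval_mul, Polynomial.eval_finset_sum]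
    simp only [Polynomial.eval_pow, Polynomial.eval_X, one_pow, Finset.sum_const, Finset.card_range,
      nsmul_eq_mul, mul_one]
    intro h
    rcases (Nat.prime_iff_prime_int.1 hℓ).dvd_or_dvd h with h | h
    · exact hd (by exact_mod_cast h)
    · exact hv h)
  refine ⟨P', le_sup_left.trans hP1, hP1 ?_, hP2⟩
  apply Ideal.mem_sup_right
  have := Ideal.mul_mem_mul (Ideal.mem_span_singleton_self f)
    (Submodule.mem_top : (1 : MvPolynomial ι K) ∈ (⊤ : Ideal _))
  rwa [mul_one] at this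

theorem not_irr {ℓ s : ℕ} {P : Ideal (MvPolynomial ι K)} (hP : Good ℓ P (s + 1)) :
    ∃ i, MvPolynomial.X i ∉ P := by
  obtain ⟨hp, hg, q, hq, hv⟩ := hP
  by_contra h
  push Not at h
  rw [HP_irr hp h, mul_one] at hq
  have h1 : q = (1 - Polynomial.X) ^ (s + 1) := by
    apply Polynomial.coe_injective ℤ
    rw [← hq, Polynomial.coe_pow, Polynomial.coe_sub, Polynomial.coe_one, Polynomial.coe_X]
  apply hv
  rw [h1]
  simp

theorem cut {ℓ : ℕ} (hℓ : ℓ.Prime) : ∀ (s : ℕ) (P : Ideal (MvPolynomial ι K)), Good ℓ P (s + 1) →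
    ∃ P', P ≤ P' ∧ Good ℓ P' 1 := by
  intro s
  induction s with
  | zero => intro P hP; exact ⟨P, le_rfl, hP⟩
  | succ s ih =>
    intro P hP
    obtain ⟨i, hi⟩ := not_irr hP
    obtain ⟨P₁, h1, -, h2⟩ := step hℓ hP (MvPolynomial.isHomogeneous_X K i)
      (fun h => hℓ.one_lt.ne' (Nat.dvd_one.1 h)) hi
    obtain ⟨P', h3, h4⟩ := ih P₁ h2
    exact ⟨P', h1.trans h3, h4⟩

end chain

theorem exists_good {K : Type} [Field K] {ι : Type} [Fintype ι] {κ : Type} [Fintype κ] {ℓ : ℕ}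
    (hℓ : ℓ.Prime) (f : κ → MvPolynomial ι K) (D : κ → ℕ) (hf : ∀ j, (f j).IsHomogeneous (D j))
    (hD : ∀ j, ¬ ℓ ∣ D j) (hlt : Fintype.card κ < Fintype.card ι) :
    ∃ P : Ideal (MvPolynomial ι K), (∀ j, f j ∈ P) ∧ Good ℓ P 1 := by
  classical
  have key : ∀ T : Finset κ, ∃ (P : Ideal (MvPolynomial ι K)) (s : ℕ), (∀ j ∈ T, f j ∈ P) ∧
      Good ℓ P s ∧ Fintype.card ι ≤ s + T.card := by
    intro T
    induction T using Finset.induction_on with
    | empty =>
      refine ⟨⊥, Fintype.card ι, by simp, ⟨Ideal.isPrime_bot,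
        Pool.Agent.Q146.TL.Top.gr_bot _, 1, ?_, ?_⟩, by simp⟩
      · have h1 := Pool.Agent.Q146.TL.Top.top Pool.Agent.Q146.TL.Hs.hs_mul 0 K ι (1 : ι → ℕ) one_pos'
        have h2 := Pool.Agent.Q146.TL.Top.hs_bot (κ := K) 0 (1 : ι → ℕ)
        have h3 : (HP (⊥ : Ideal (MvPolynomial ι K)) : PowerSeries ℤ) =
            hs 0 (1 : ι → ℕ) (⊤ : Ideal (MvPolynomial ι K)) := by
          unfold HP
          rw [h2, sub_zero]
        have h4 : HP (⊥ : Ideal (MvPolynomial ι K)) *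
            ∏ i : ι, (1 - PowerSeries.X ^ (1 : ι → ℕ) i) = (1 : PowerSeries ℤ) :=
          (congrArg (fun z : PowerSeries ℤ => z *
            ∏ i : ι, (1 - PowerSeries.X ^ (1 : ι → ℕ) i)) h3).trans h1
        have h5 : ∏ i : ι, (1 - PowerSeries.X ^ (1 : ι → ℕ) i : PowerSeries ℤ) =
            (1 - PowerSeries.X) ^ Fintype.card ι := by
          simp
        rw [h5] at h4
        rw [Polynomial.coe_one, mul_comm]
        exact h4
      · rw [Polynomial.eval_one]
        intro h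
        exact hℓ.one_lt.ne' (Nat.dvd_one.1 (by exact_mod_cast h))
    | insert j T hj ih =>
      obtain ⟨P, s, h1, h2, h3⟩ := ih
      have hc : T.card + 1 ≤ Fintype.card κ := by
        rw [← Finset.card_insert_of_notMem hj]
        exact Finset.card_le_univ _
      by_cases hfP : f j ∈ P
      · refine ⟨P, s, ?_, h2, ?_⟩
        · intro i hi
          rcases Finset.mem_insert.1 hi with rfl | hi
          · exact hfP
          · exact h1 i hi
        · rw [Finset.card_insert_of_notMem hj]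
          omega
      · obtain ⟨s, rfl⟩ : ∃ s', s = s' + 1 := ⟨s - 1, by omega⟩
        obtain ⟨P', h4, h5, h6⟩ := step hℓ h2 (hf j) (hD j) hfP
        refine ⟨P', s, ?_, h6, ?_⟩
        · intro i hi
          rcases Finset.mem_insert.1 hi with rfl | hi
          · exact h5
          · exact h4 (h1 i hi)
        · rw [Finset.card_insert_of_notMem hj]
          omega
  obtain ⟨P, s, h1, h2, h3⟩ := key Finset.univ
  rw [Finset.card_univ] at h3
  obtain ⟨s, rfl⟩ : ∃ s', s = s' + 1 := ⟨s - 1, by omega⟩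
  obtain ⟨P', h4, h5⟩ := cut hℓ s P h2
  exact ⟨P', fun j => h4 (h1 j (Finset.mem_univ j)), h5⟩

end Pool.Agent.H89.PF
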