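import Pool.Agent.H89.PF.Chain
import Pool.Graph.R_pool_sql_team_seeded_3997aac3.Q146.TL.Fld

/-! Pfister's theorem: forms of degree prime to `ℓ`. -/

set_option autoImplicit false
set_option linter.all false

open Module

namespace Pool.Agent.H89.PF

open Pool.Agent.Q49.TL

theorem aeval_scale {R L : Type} [Field R] [Field L] [Algebra R L] {ι : Type} [Finite ι]
    {H : MvPolynomial ι R} {d : ℕ} (hH : H.IsHomogeneous d) (c : L) (x : ι → L) :
    MvPolynomial.aeval (fun i => c * x i) H = c ^ d * MvPolynomial.aeval x H := by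
  haveI := Fintype.ofFinite ι
  rw [MvPolynomial.aeval_def, MvPolynomial.aeval_def, MvPolynomial.eval₂_eq',
    MvPolynomial.eval₂_eq', Finset.mul_sum]
  refine Finset.sum_congr rfl fun e he => ?_
  have h5 : ∑ i, e i = d := by
    have := hH (MvPolynomial.mem_support_iff.1 he)
    rw [← this, Finsupp.weight_apply, Finsupp.sum_fintype _ _ (fun _ => by simp)]
    simp
  simp only [mul_pow, Finset.prod_mul_distrib]
  rw [Finset.prod_pow_eq_pow_sum, h5]
  ring

theorem point_of_good {K : Type} [Field K] {ι : Type} [Finite ι] {ℓ : ℕ}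
    {P : Ideal (MvPolynomial ι K)} (hP : Good ℓ P 1) :
    ∃ (L : Type) (_ : Field L) (_ : Algebra K L) (y : ι → L), FiniteDimensional K L ∧
      ¬ ℓ ∣ finrank K L ∧ y ≠ 0 ∧ ∀ (f : MvPolynomial ι K) (d : ℕ), f.IsHomogeneous d → f ∈ P →
        MvPolynomial.aeval y f = 0 := by
  obtain ⟨i₀, hi₀⟩ := not_irr hP
  obtain ⟨hp, hg, q, hq, hv⟩ := hP
  rw [pow_one] at hq
  obtain ⟨M, hM⟩ := eval_coeff (HP P) q hq
  let Fr := FractionRing (MvPolynomial ι K ⧸ P)
  let ψ : MvPolynomial ι K →ₐ[K] Fr :=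
    (IsScalarTower.toAlgHom K (MvPolynomial ι K ⧸ P) Fr).comp (Ideal.Quotient.mkₐ K P)
  have hψ : ∀ x, ψ x = 0 ↔ x ∈ P := by
    intro x
    change algebraMap (MvPolynomial ι K ⧸ P) Fr (Ideal.Quotient.mk P x) = 0 ↔ x ∈ P
    rw [map_eq_zero_iff _ (IsFractionRing.injective (MvPolynomial ι K ⧸ P) Fr),
      Ideal.Quotient.eq_zero_iff_mem]
  set x : Fr := ψ (MvPolynomial.X i₀) with hx
  have hx0 : x ≠ 0 := fun h => hi₀ ((hψ _).1 h)
  let V : ℕ → Submodule K Fr := fun m =>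
    ((pc (1 : ι → ℕ) (⊤ : Ideal (MvPolynomial ι K)) m).map ψ.toLinearMap).map
      (LinearMap.mulLeft K ((x ^ m)⁻¹))
  have hVmem : ∀ m z, z ∈ V m ↔ ∃ a : MvPolynomial ι K, a.IsHomogeneous m ∧ (x ^ m)⁻¹ * ψ a = z := by
    intro m z
    constructor
    · rintro ⟨_, ⟨a, ha, rfl⟩, rfl⟩
      exact ⟨a, ((Pool.Agent.Q146.TL.Hs.mem_pc_iff _ _ _ _).1 ha).2, rfl⟩
    · rintro ⟨a, ha, rfl⟩
      exact ⟨ψ a, ⟨a, (Pool.Agent.Q146.TL.Hs.mem_pc_iff _ _ _ _).2 ⟨Submodule.mem_top, ha⟩, rfl⟩, rfl⟩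
  haveI hfdT : ∀ m, FiniteDimensional K (pc (1 : ι → ℕ) (⊤ : Ideal (MvPolynomial ι K)) m) :=
    fun m => fd_pc _ m
  haveI hfdV : ∀ m, FiniteDimensional K (V m) := fun m => inferInstance
  have hinj : ∀ m, Function.Injective (LinearMap.mulLeft K ((x ^ m)⁻¹) : Fr →ₗ[K] Fr) := by
    intro m a b h
    exact mul_left_cancel₀ (inv_ne_zero (pow_ne_zero _ hx0)) h
  have hrank : ∀ m, M ≤ m → (finrank K (V m) : ℤ) = q.eval 1 := by
    intro m hm
    have h1 := Pool.Agent.Q146.TL.Fld.finrank_pc_eq (1 : ι → ℕ) (le_top : P ≤ ⊤) ψ hψ m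
    have h2 : finrank K (V m) = finrank K
        ((pc (1 : ι → ℕ) (⊤ : Ideal (MvPolynomial ι K)) m).map ψ.toLinearMap) :=
      (Submodule.equivMapOfInjective _ (hinj m) _).finrank_eq.symm
    have h3 := hM m hm
    rw [coeff_HP] at h3
    rw [← h3, h2]
    rw [h1]
    push_cast
    ring
  have hsucc : ∀ m, V m ≤ V (m + 1) := by
    intro m z hz
    obtain ⟨a, ha, rfl⟩ := (hVmem m z).1 hz
    refine (hVmem _ _).2 ⟨a * MvPolynomial.X i₀, ha.mul (MvPolynomial.isHomogeneous_X K i₀), ?_⟩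
    rw [map_mul, ← hx, pow_succ, mul_inv]
    calc (x ^ m)⁻¹ * x⁻¹ * (ψ a * x) = (x ^ m)⁻¹ * ψ a * (x⁻¹ * x) := by ring
      _ = (x ^ m)⁻¹ * ψ a := by rw [inv_mul_cancel₀ hx0, mul_one]
  have hmono : Monotone V := monotone_nat_of_le_succ hsucc
  have heq : ∀ m, M ≤ m → V m = V M := by
    intro m hm
    refine (Submodule.eq_of_le_of_finrank_eq (hmono hm) ?_).symm
    have h1 := hrank m hm
    have h2 := hrank M le_rfl
    rw [← h2] at h1
    exact_mod_cast h1.symm
  have hall : ∀ m, V m ≤ V M := by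
    intro m
    rcases le_total m M with h | h
    · exact hmono h
    · exact (heq m h).le
  have hmulV : ∀ a b, a ∈ V M → b ∈ V M → a * b ∈ V M := by
    intro a b ha hb
    obtain ⟨a', ha', rfl⟩ := (hVmem _ _).1 ha
    obtain ⟨b', hb', rfl⟩ := (hVmem _ _).1 hb
    apply hall (M + M)
    refine (hVmem _ _).2 ⟨a' * b', ha'.mul hb', ?_⟩
    rw [map_mul, pow_add, mul_inv]
    ring
  let A : Subalgebra K Fr :=
    { carrier := V M
      mul_mem' := fun {a b} => hmulV a b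
      add_mem' := fun {a b} => (V M).add_mem
      algebraMap_mem' := fun c => by
        apply hall 0
        refine (hVmem _ _).2 ⟨MvPolynomial.C c, MvPolynomial.isHomogeneous_C ι c, ?_⟩
        rw [pow_zero, inv_one, one_mul]
        exact ψ.commutes c }
  have hAV : ∀ z, z ∈ A ↔ z ∈ V M := fun z => Iff.rfl
  haveI hfdA : FiniteDimensional K A := hfdV M
  let L : IntermediateField K Fr := A.toIntermediateField (by
    intro z hz
    have h1 : IsIntegral K (⟨z, hz⟩ : A) := Algebra.IsIntegral.isIntegral _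
    have h2 : IsAlgebraic K z := by
      have := h1.map A.val
      exact this.isAlgebraic
    exact A.inv_mem_of_algebraic (x := ⟨z, hz⟩) (by exact h2))
  have hLA : ∀ z, z ∈ L ↔ z ∈ V M := fun z => Iff.rfl
  have hLrank : finrank K L = finrank K (V M) := rfl
  haveI : FiniteDimensional K L := hfdA
  have hy : ∀ j, (x ^ 1)⁻¹ * ψ (MvPolynomial.X j) ∈ L := fun j =>
    hall 1 ((hVmem _ _).2 ⟨_, MvPolynomial.isHomogeneous_X K j, rfl⟩)
  let y : ι → L := fun j => ⟨(x ^ 1)⁻¹ * ψ (MvPolynomial.X j), hy j⟩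
  refine ⟨L, inferInstance, inferInstance, y, inferInstance, ?_, ?_, ?_⟩
  · intro h
    apply hv
    rw [← hrank M le_rfl, ← hLrank]
    exact_mod_cast h
  · intro h0
    have h1 := congrArg (fun z : L => (z : Fr)) (congrFun h0 i₀)
    change (x ^ 1)⁻¹ * x = 0 at h1
    rw [pow_one, inv_mul_cancel₀ hx0] at h1
    exact one_ne_zero h1
  · intro f d hf hfP
    apply (algebraMap L Fr).injective
    rw [map_zero, ← MvPolynomial.aeval_algebraMap_apply]
    have h2 : MvPolynomial.aeval (fun i => ψ (MvPolynomial.X i)) f = ψ f := by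
      have := MvPolynomial.aeval_unique ψ
      exact (congrArg (fun g : MvPolynomial ι K →ₐ[K] Fr => g f) this).symm
    have h3 : (algebraMap L Fr ∘ y) = fun i => x⁻¹ * ψ (MvPolynomial.X i) := by
      funext i
      change (x ^ 1)⁻¹ * ψ (MvPolynomial.X i) = _
      rw [pow_one]
    rw [h3, aeval_scale hf, h2, (hψ f).2 hfP, mul_zero]

/-- **Pfister's theorem**: `r` forms of degrees prime to `ℓ` in more than `r` variables have a common
nontrivial zero in an extension of degree prime to `ℓ`. -/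
theorem pfister {K : Type} [Field K] {ι : Type} [Fintype ι] {κ : Type} [Fintype κ] {ℓ : ℕ}
    (hℓ : ℓ.Prime) (f : κ → MvPolynomial ι K) (D : κ → ℕ) (hf : ∀ j, (f j).IsHomogeneous (D j))
    (hD : ∀ j, ¬ ℓ ∣ D j) (hlt : Fintype.card κ < Fintype.card ι) :
    ∃ (L : Type) (_ : Field L) (_ : Algebra K L) (y : ι → L), FiniteDimensional K L ∧
      ¬ ℓ ∣ finrank K L ∧ y ≠ 0 ∧ ∀ j, MvPolynomial.aeval y (f j) = 0 := by
  obtain ⟨P, h1, h2⟩ := exists_good hℓ f D hf hD hlt
  obtain ⟨L, iL, iA, y, h3, h4, h5, h6⟩ := point_of_good h2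
  exact ⟨L, iL, iA, y, h3, h4, h5, fun j => h6 (f j) (D j) (hf j) (h1 j)⟩

end Pool.Agent.H89.PF
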