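import Pool.Graph.R_pool_sql_team_seeded_3997aac3.Q225.TL.Noe
import Pool.Graph.R_pool_sql_team_seeded_3997aac3.Q146.TL.Hs
import Pool.Graph.R_pool_sql_team_seeded_3997aac3.Q146.TL.Top

/-! Poles of Hilbert series at one. -/

set_option autoImplicit false
set_option linter.all false

open Module

namespace Pool.Agent.H89.PF

open Pool.Agent.Q49.TL

/-! ### Power series with integral coefficients -/

/-- if the differences of a sequence are eventually negative, then so is the sequence -/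
theorem neg_step (A : PowerSeries ℤ) (h : ∃ M, ∀ m, M ≤ m → PowerSeries.coeff m ((1 - PowerSeries.X) * A) ≤ -1) :
    ∃ M, ∀ m, M ≤ m → PowerSeries.coeff m A ≤ -1 := by
  obtain ⟨M, hM⟩ := h
  have h1 : ∀ m, M ≤ m → PowerSeries.coeff (m + 1) A ≤ PowerSeries.coeff m A - 1 := by
    intro m hm
    have h2 := hM (m + 1) (by omega)
    rw [sub_mul, one_mul, map_sub, PowerSeries.coeff_succ_X_mul] at h2
    linarith
  have h3 : ∀ j : ℕ, PowerSeries.coeff (M + j) A ≤ PowerSeries.coeff M A - j := by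
    intro j
    induction j with
    | zero => simp
    | succ j ih =>
      have := h1 (M + j) (by omega)
      rw [← add_assoc]
      push_cast
      linarith
  refine ⟨M + (PowerSeries.coeff M A).toNat + 1, fun m hm => ?_⟩
  obtain ⟨j, rfl⟩ : ∃ j, m = M + j := ⟨m - M, by omega⟩
  have h4 := h3 j
  have h5 : (PowerSeries.coeff M A) ≤ ((PowerSeries.coeff M A).toNat : ℤ) := Int.self_le_toNat _
  have h6 : ((PowerSeries.coeff M A).toNat : ℤ) + 1 ≤ j := by
    have : (PowerSeries.coeff M A).toNat + 1 ≤ j := by omega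
    exact_mod_cast this
  linarith

theorem eval_coeff (A : PowerSeries ℤ) (R : Polynomial ℤ)
    (h : (1 - PowerSeries.X) * A = (R : PowerSeries ℤ)) :
    ∃ M, ∀ m, M ≤ m → PowerSeries.coeff m A = R.eval 1 := by
  have h0 : ∀ m, PowerSeries.coeff m A = ∑ i ∈ Finset.range (m + 1), R.coeff i := by
    intro m
    induction m with
    | zero =>
      have h1 := congrArg (PowerSeries.coeff 0) h
      rw [sub_mul, one_mul, map_sub, PowerSeries.coeff_zero_X_mul, sub_zero, Polynomial.coeff_coe] at h1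
      simpa using h1
    | succ m ih =>
      have h1 := congrArg (PowerSeries.coeff (m + 1)) h
      rw [sub_mul, one_mul, map_sub, PowerSeries.coeff_succ_X_mul, Polynomial.coeff_coe] at h1
      rw [Finset.sum_range_succ, ← ih]
      linarith
  refine ⟨R.natDegree, fun m hm => ?_⟩
  rw [h0, Polynomial.eval_eq_sum_range' (show R.natDegree < m + 1 by omega)]
  simp

theorem pos_pole (A : PowerSeries ℤ) (hA : ∀ m, 0 ≤ PowerSeries.coeff m A) (s : ℕ) (R : Polynomial ℤ)
    (hs : 0 < s) (h : (1 - PowerSeries.X) ^ s * A = (R : PowerSeries ℤ)) : 0 ≤ R.eval 1 := by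
  by_contra hneg
  push Not at hneg
  have key : ∀ j : ℕ, j < s → ∃ M, ∀ m, M ≤ m →
      PowerSeries.coeff m ((1 - PowerSeries.X) ^ (s - 1 - j) * A) ≤ -1 := by
    intro j
    induction j with
    | zero =>
      intro _
      obtain ⟨M, hM⟩ := eval_coeff ((1 - PowerSeries.X) ^ (s - 1) * A) R (by
        rw [← mul_assoc, ← pow_succ']
        rw [show s - 1 + 1 = s by omega, h])
      exact ⟨M, fun m hm => by rw [Nat.sub_zero, hM m hm]; omega⟩
    | succ j ih =>
      intro hj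
      refine neg_step _ ?_
      rw [← mul_assoc, ← pow_succ']
      rw [show s - 1 - (j + 1) + 1 = s - 1 - j by omega]
      exact ih (by omega)
  obtain ⟨M, hM⟩ := key (s - 1) (by omega)
  have h1 := hM M le_rfl
  rw [Nat.sub_self, pow_zero, one_mul] at h1
  have := hA M
  linarith

theorem one_sub_ne : (1 - PowerSeries.X : PowerSeries ℤ) ≠ 0 := by
  intro h
  have := congrArg (PowerSeries.coeff 0) h
  simp at this

/-- comparison of poles -/
theorem compare (A B : PowerSeries ℤ) (hA : ∀ m, 0 ≤ PowerSeries.coeff m A)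
    (hAB : ∀ m, PowerSeries.coeff m A ≤ PowerSeries.coeff m B) (s : ℕ) (Q : Polynomial ℤ)
    (hB : (1 - PowerSeries.X) ^ s * B = (Q : PowerSeries ℤ)) :
    ∀ (N : ℕ) (R : Polynomial ℤ), (1 - PowerSeries.X) ^ N * A = (R : PowerSeries ℤ) →
      ∃ R' : Polynomial ℤ, (1 - PowerSeries.X) ^ s * A = (R' : PowerSeries ℤ) := by
  intro N
  induction N with
  | zero =>
    intro R h
    refine ⟨(1 - Polynomial.X) ^ s * R, ?_⟩
    rw [Polynomial.coe_mul, Polynomial.coe_pow, Polynomial.coe_sub, Polynomial.coe_one,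
      Polynomial.coe_X, ← h, pow_zero, one_mul]
  | succ N ih =>
    intro R h
    by_cases hN : N + 1 ≤ s
    · refine ⟨(1 - Polynomial.X) ^ (s - (N + 1)) * R, ?_⟩
      rw [Polynomial.coe_mul, Polynomial.coe_pow, Polynomial.coe_sub, Polynomial.coe_one,
        Polynomial.coe_X, ← h, ← mul_assoc, ← pow_add, Nat.sub_add_cancel hN]
    · have h1 : 0 ≤ R.eval 1 := pos_pole A hA (N + 1) R (by omega) h
      have h2 : (1 - PowerSeries.X) ^ (N + 1) * (B - A) =
          (((1 - Polynomial.X) ^ (N + 1 - s) * Q - R : Polynomial ℤ) : PowerSeries ℤ) := by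
        rw [mul_sub, h, Polynomial.coe_sub, Polynomial.coe_mul, Polynomial.coe_pow,
          Polynomial.coe_sub, Polynomial.coe_one, Polynomial.coe_X, ← hB, ← mul_assoc, ← pow_add,
          Nat.sub_add_cancel (by omega)]
      have h3 := pos_pole (B - A) (fun m => by
        rw [map_sub]; exact sub_nonneg.2 (hAB m)) (N + 1) _ (by omega) h2
      rw [Polynomial.eval_sub, Polynomial.eval_mul, Polynomial.eval_pow, Polynomial.eval_sub,
        Polynomial.eval_one, Polynomial.eval_X, sub_self, zero_pow (by omega), zero_mul, zero_sub] at h3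
      have h4 : R.eval 1 = 0 := by omega
      obtain ⟨R1, hR1⟩ := Polynomial.dvd_iff_isRoot.2 h4
      refine ih (-R1) ?_
      apply mul_left_cancel₀ one_sub_ne
      rw [← mul_assoc, ← pow_succ', h, hR1, Polynomial.coe_mul, Polynomial.coe_sub,
        Polynomial.coe_X, Polynomial.coe_neg, map_one, Polynomial.coe_one]
      ring

/-! ### Hilbert series -/

section hilb

variable {K : Type} [Field K] {ι : Type} [Finite ι]

/-- the Hilbert series of the quotient by `J` -/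
noncomputable def HP (J : Ideal (MvPolynomial ι K)) : PowerSeries ℤ :=
  hs 0 (1 : ι → ℕ) (⊤ : Ideal (MvPolynomial ι K)) - hs 0 (1 : ι → ℕ) J

theorem one_pos' : ∀ i : ι, 0 < (1 : ι → ℕ) i := fun _ => one_pos

theorem fd_pc (J : Ideal (MvPolynomial ι K)) (m : ℕ) : FiniteDimensional K (pc (1 : ι → ℕ) J m) := by
  haveI := Pool.Agent.Q146.TL.Hs.fd K ι (1 : ι → ℕ) one_pos' m
  exact Submodule.finiteDimensional_inf_right _ _

theorem pc_mono {J J' : Ideal (MvPolynomial ι K)} (h : J ≤ J') (m : ℕ) :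
    finrank K (pc (1 : ι → ℕ) J m) ≤ finrank K (pc (1 : ι → ℕ) J' m) := by
  haveI := fd_pc J' m
  exact Submodule.finrank_mono (inf_le_inf_right _ h)

theorem coeff_HP (J : Ideal (MvPolynomial ι K)) (m : ℕ) : PowerSeries.coeff m (HP J) =
    (finrank K (pc (1 : ι → ℕ) (⊤ : Ideal (MvPolynomial ι K)) m) : ℤ) -
      (finrank K (pc (1 : ι → ℕ) J m) : ℤ) := by
  have h := map_sub (PowerSeries.coeff (R := ZMod 0) m)
    (hs 0 (1 : ι → ℕ) (⊤ : Ideal (MvPolynomial ι K))) (hs 0 (1 : ι → ℕ) J)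
  have h1 : PowerSeries.coeff (R := ZMod 0) m (hs 0 (1 : ι → ℕ) (⊤ : Ideal (MvPolynomial ι K))) =
    ((finrank K (pc (1 : ι → ℕ) (⊤ : Ideal (MvPolynomial ι K)) m) : ℕ) : ZMod 0) :=
    PowerSeries.coeff_mk m _
  have h2 : PowerSeries.coeff (R := ZMod 0) m (hs 0 (1 : ι → ℕ) J) =
    ((finrank K (pc (1 : ι → ℕ) J m) : ℕ) : ZMod 0) :=
    PowerSeries.coeff_mk m _
  rw [h1, h2] at h
  exact h

theorem HP_nonneg (J : Ideal (MvPolynomial ι K)) (m : ℕ) : 0 ≤ PowerSeries.coeff m (HP J) := by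
  rw [coeff_HP, sub_nonneg]
  exact_mod_cast pc_mono le_top m

theorem HP_anti {J J' : Ideal (MvPolynomial ι K)} (h : J ≤ J') (m : ℕ) :
    PowerSeries.coeff m (HP J') ≤ PowerSeries.coeff m (HP J) := by
  rw [coeff_HP, coeff_HP]
  have := pc_mono h m
  have h2 : (finrank K (pc (1 : ι → ℕ) J m) : ℤ) ≤ (finrank K (pc (1 : ι → ℕ) J' m) : ℤ) := by
    exact_mod_cast this
  linarith

theorem HP_add {J : Ideal (MvPolynomial ι K)} (hJ : Gr (1 : ι → ℕ) J) {a : MvPolynomial ι K} {e : ℕ}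
    (ha : a.IsHomogeneous e) : Gr (1 : ι → ℕ) (J ⊔ Ideal.span {a} * ⊤) ∧
      Gr (1 : ι → ℕ) (⊤ ⊓ qt J a) ∧
      HP (J ⊔ Ideal.span {a} * ⊤) = HP J - PowerSeries.X ^ e * HP (⊤ ⊓ qt J a) := by
  obtain ⟨g1, g2, g3⟩ := Pool.Agent.Q146.TL.Hs.hs_mul 0 K ι (1 : ι → ℕ) one_pos' J ⊤ hJ
    (Pool.Agent.Q225.TL.gr_top _) le_top a e ha
  refine ⟨g1, g2, ?_⟩
  unfold HP
  have g4 : hs 0 (1 : ι → ℕ) (J ⊔ Ideal.span {a} * ⊤) = hs 0 (1 : ι → ℕ) J + PowerSeries.X ^ e *
      hs 0 (1 : ι → ℕ) (⊤ : Ideal (MvPolynomial ι K)) - PowerSeries.X ^ e * hs 0 (1 : ι → ℕ) (⊤ ⊓ qt J a) :=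
    eq_sub_of_add_eq g3
  have g5 : ∀ (a b c d e : PowerSeries ℤ), a - (b + e * a - e * c) = (a - b) - e * (a - c) := by
    intro a b c d e; ring
  rw [g4]
  exact g5 _ _ _ 0 _

theorem lt_sup {J : Ideal (MvPolynomial ι K)} {a : MvPolynomial ι K} (ha : a ∉ J) :
    J < J ⊔ Ideal.span {a} * ⊤ := by
  refine lt_of_le_of_ne le_sup_left ?_
  intro he
  apply ha
  rw [he]
  apply Ideal.mem_sup_right
  have := Ideal.mul_mem_mul (Ideal.mem_span_singleton_self a)
    (Submodule.mem_top : (1 : MvPolynomial ι K) ∈ (⊤ : Ideal _))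
  rwa [mul_one] at this

theorem lt_qt {J : Ideal (MvPolynomial ι K)} {a b : MvPolynomial ι K} (hb : b ∉ J)
    (hab : a * b ∈ J) : J < ⊤ ⊓ qt J a := by
  refine lt_of_le_of_ne ?_ ?_
  · rw [top_inf_eq]
    intro x hx
    exact J.mul_mem_left a hx
  · intro he
    apply hb
    rw [he]
    exact ⟨Submodule.mem_top, hab⟩

theorem qt_prime {P : Ideal (MvPolynomial ι K)} (hP : P.IsPrime) {a : MvPolynomial ι K} (ha : a ∉ P) :
    ⊤ ⊓ qt P a = P := by
  rw [top_inf_eq]
  ext x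
  rw [Pool.Agent.Q146.TL.Hs.mem_qt_iff]
  constructor
  · intro h
    exact (hP.mem_or_mem h).resolve_left ha
  · intro h
    exact P.mul_mem_left a h

theorem HP_prime {P : Ideal (MvPolynomial ι K)} (hP : P.IsPrime) (hg : Gr (1 : ι → ℕ) P)
    {a : MvPolynomial ι K} {e : ℕ} (ha : a.IsHomogeneous e) (haP : a ∉ P) :
    HP (P ⊔ Ideal.span {a} * ⊤) = (1 - PowerSeries.X ^ e) * HP P := by
  rw [(HP_add hg ha).2.2, qt_prime hP haP]
  ring

theorem HP_irr {P : Ideal (MvPolynomial ι K)} (hP : P.IsPrime) (h : ∀ i, MvPolynomial.X i ∈ P) :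
    HP P = 1 :=
  Pool.Agent.Q225.TL.hs_irr 0 one_pos' hP h

theorem HP_top : HP (⊤ : Ideal (MvPolynomial ι K)) = 0 := sub_self _

/-- all Hilbert series are rational with a pole at one only -/
theorem exists_pole (J : Ideal (MvPolynomial ι K)) : Gr (1 : ι → ℕ) J →
    ∃ (N : ℕ) (R : Polynomial ℤ), (1 - PowerSeries.X) ^ N * HP J = (R : PowerSeries ℤ) := by
  induction J using WellFoundedGT.induction with
  | ind J ih =>
    intro hJ
    by_cases ht : J = ⊤
    · exact ⟨0, 0, by rw [ht, HP_top, mul_zero, Polynomial.coe_zero]⟩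
    by_cases hp : J.IsPrime
    · by_cases hX : ∀ i, MvPolynomial.X i ∈ J
      · exact ⟨0, 1, by rw [HP_irr hp hX, pow_zero, one_mul, Polynomial.coe_one]⟩
      · push Not at hX
        obtain ⟨i, hi⟩ := hX
        obtain ⟨N, R, hR⟩ := ih _ (lt_sup hi) (HP_add hJ (MvPolynomial.isHomogeneous_X K i)).1
        rw [HP_prime hp hJ (MvPolynomial.isHomogeneous_X K i) hi, pow_one, ← mul_assoc,
          ← pow_succ] at hR
        exact ⟨N + 1, R, hR⟩
    · obtain ⟨a, b, e, ha, haJ, hbJ, hab⟩ := Pool.Agent.Q225.TL.not_prime hJ ht hp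
      obtain ⟨g1, g2, g3⟩ := HP_add hJ ha
      obtain ⟨N1, R1, h1⟩ := ih _ (lt_sup haJ) g1
      obtain ⟨N2, R2, h2⟩ := ih _ (lt_qt hbJ hab) g2
      have g4 : HP J = HP (J ⊔ Ideal.span {a} * ⊤) + PowerSeries.X ^ e * HP (⊤ ⊓ qt J a) := by
        rw [g3]; ring
      refine ⟨N1 + N2, (1 - Polynomial.X) ^ N2 * R1 + (1 - Polynomial.X) ^ N1 * Polynomial.X ^ e * R2,
        ?_⟩
      rw [g4]
      simp only [Polynomial.coe_mul, Polynomial.coe_pow, Polynomial.coe_sub, Polynomial.coe_one,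
        Polynomial.coe_X, Polynomial.coe_add]
      rw [← h1, ← h2]
      ring

end hilb

end Pool.Agent.H89.PF
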